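import Pool.Agent.MP_57c94c_al.Mg.Proof

namespace Pool.Agent.Results.MP_57c94c_al.CharTwo

open Pool.Agent.MP_57c94c_al

universe u

/-- Over every field `k` of characteristic two there is a finite-dimensional semisimple Hopf
algebra `H` such that `H_par` is not semisimple. -/
theorem result (k : Type u) [Field k] [CharP k 2] :
    ∃ (H : Type u) (_ : Ring H) (_ : HopfAlgebra k H),
      IsSemisimpleRing H ∧ Module.Finite k H ∧ ¬ IsSemisimpleRing (HPar k H) :=
  ⟨DualAlg k PG, inferInstance, inferInstance, inferInstance, inferInstance, not_semisimple k⟩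

end Pool.Agent.Results.MP_57c94c_al.CharTwo
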