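import Pool.Agent.MP_57c94c_al.H65.LR

namespace Pool.Agent.Results.MP_57c94c_al.CharZero

open Pool.Agent.MP_57c94c_al

universe u v

/-- Over every field `k` of characteristic zero, `H_par` of a semisimple Hopf algebra `H` is
finite-dimensional and semisimple. -/
theorem result (k : Type u) (H : Type v) [Field k] [CharZero k] [Ring H] [HopfAlgebra k H]
    [IsSemisimpleRing H] : Module.Finite k (HPar k H) ∧ IsSemisimpleRing (HPar k H) :=
  H65.hpar_of_semisimple k H

end Pool.Agent.Results.MP_57c94c_al.CharZero
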